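import Pool.Agent.H89.Link.Fc2
import Pool.Agent.H89.Link.Diag
import Pool.Agent.H56.EX.Stat
import Pool.Agent.H34.Hom.SumVR
import Pool.Agent.H31.EX.PowerLaw

/-!
# The four-arm exponent of the square lattice at `1 / 2`

The four-leg sum of the stationary vector of the cylinder of circumference `2 n` gives the
probability of four arms up to constants.
-/

set_option autoImplicit false

open MeasureTheory ProbabilityTheory unitInterval Filter Topology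

namespace Pool.Agent.H89.EX

open H56.EX
open Pool.Agent.H89.Link
open Pool.Agent.H89.Perc (Vert Edge Config Pr half)
open Pool.Agent.H61.NC (a4 a4_nonneg)
open Pool.Agent.H31.EX (PN)
open Pool.Agent.H34.Hom (p4 p4_power_law sum_vv_ne legSum_vv)

theorem link_four_p4 {n : ℕ} (hn : 2 ≤ n) :
    (∀ k : ℕ, 1 ≤ k → 2 * k < n → k + 2 < n → p4 n ≤ Pr half (FourD k)) ∧
      (∀ H : ℕ, Pr half {ω | per n ω ∈ Fc n H} ≤ p4 n) ∧
      ∀ H : ℕ, Pr half {ω | per n ω ∈ Fc2 n H} ≤ p4 n := by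
  have hst := H56.EX.stat Pool.Agent.H12.QKZ.psiProps (L := 2 * n) (by omega)
  obtain ⟨g, hg, h1, h2, h3⟩ := link_four2 (L := 2 * n) (n := n) rfl hn hst
    (sum_vv_ne Pool.Agent.H12.QKZ.psiProps rfl (by omega))
  have e : g = p4 n := by
    have h := legSum_vv Pool.Agent.H12.QKZ.psiProps (L := 2 * n) (n := n) rfl (by omega)
    have h' : (g : ℂ) = ((p4 n : ℝ) : ℂ) := hg.trans h
    exact_mod_cast h'
  subst e
  exact ⟨h1, h2, h3⟩

/-- The lower bound for the probability of four arms. -/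
theorem a4_lower : ∃ c > (0 : ℝ), ∀ r : ℕ, 1 ≤ r → c * (r : ℝ) ^ (-(5 / 4 : ℝ)) ≤ a4 half r := by
  obtain ⟨c, C, hc, hC, h⟩ := p4_power_law
  refine ⟨c / 6 * (5 : ℝ) ^ (-(5 / 4 : ℝ)), by positivity, fun r hr => ?_⟩
  have h1 := (h (2 * r + 3) (by omega)).1
  have h2 := (link_four_p4 (n := 2 * r + 3) (by omega)).1 (r + 1) (by omega) (by omega)
    (by omega)
  have h3 := fourD_le_a4 half (by rw [show ((half : I) : ℝ) = 1 / 2 from rfl]; norm_num)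
    (k := r + 1) (by omega)
  rw [Nat.add_sub_cancel] at h3
  have hr0 : (0 : ℝ) < r := by exact_mod_cast hr
  have h4 : (5 : ℝ) ^ (-(5 / 4 : ℝ)) * (r : ℝ) ^ (-(5 / 4 : ℝ)) ≤
      ((2 * r + 3 : ℕ) : ℝ) ^ (-(5 / 4 : ℝ)) := by
    rw [← Real.mul_rpow (by norm_num) hr0.le]
    apply Real.rpow_le_rpow_of_nonpos
    · positivity
    · push_cast
      have : (1 : ℝ) ≤ r := by exact_mod_cast hr
      linarith
    · norm_num
  have h5 : p4 (2 * r + 3) ≤ 6 * a4 half r := h2.trans h3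
  have h6 : c * ((2 * r + 3 : ℕ) : ℝ) ^ (-(5 / 4 : ℝ)) ≤ 6 * a4 half r := h1.trans h5
  have h7 := mul_le_mul_of_nonneg_left h4 hc.le
  calc c / 6 * (5 : ℝ) ^ (-(5 / 4 : ℝ)) * (r : ℝ) ^ (-(5 / 4 : ℝ))
      = 1 / 6 * (c * ((5 : ℝ) ^ (-(5 / 4 : ℝ)) * (r : ℝ) ^ (-(5 / 4 : ℝ)))) := by ring
    _ ≤ a4 half r := by linarith

/-- Outward separation: four arms of the plane can be continued to the four-leg event of the
cylinder. -/
def UpA4 : Prop := ∃ C > (0 : ℝ), ∀ r : ℕ, 1 ≤ r → ∃ n H : ℕ, r ≤ n ∧ 2 ≤ n ∧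
  (a4 half r ≤ C * Pr half {ω | per n ω ∈ Fc n H} ∨
    a4 half r ≤ C * Pr half {ω | per n ω ∈ Fc2 n H})

theorem a4_upper (hU : UpA4) :
    ∃ C > (0 : ℝ), ∀ r : ℕ, 1 ≤ r → a4 half r ≤ C * (r : ℝ) ^ (-(5 / 4 : ℝ)) := by
  obtain ⟨c, C, hc, hC, h⟩ := p4_power_law
  obtain ⟨K, hK, hU⟩ := hU
  refine ⟨K * C, by positivity, fun r hr => ?_⟩
  obtain ⟨n, H, h1, h2, h3⟩ := hU r hr
  have hr0 : (0 : ℝ) < r := by exact_mod_cast hr
  have h4 : a4 half r ≤ K * p4 n := by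
    rcases h3 with h3 | h3
    · exact h3.trans (mul_le_mul_of_nonneg_left ((link_four_p4 h2).2.1 H) hK.le)
    · exact h3.trans (mul_le_mul_of_nonneg_left ((link_four_p4 h2).2.2 H) hK.le)
  have h5 : p4 n ≤ C * (n : ℝ) ^ (-(5 / 4 : ℝ)) := (h n (by omega)).2
  have h6 : (n : ℝ) ^ (-(5 / 4 : ℝ)) ≤ (r : ℝ) ^ (-(5 / 4 : ℝ)) := by
    apply Real.rpow_le_rpow_of_nonpos hr0
    · exact_mod_cast h1
    · norm_num
  calc a4 half r ≤ K * p4 n := h4
    _ ≤ K * (C * (n : ℝ) ^ (-(5 / 4 : ℝ))) := mul_le_mul_of_nonneg_left h5 hK.le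
    _ ≤ K * (C * (r : ℝ) ^ (-(5 / 4 : ℝ))) := by gcongr
    _ = K * C * (r : ℝ) ^ (-(5 / 4 : ℝ)) := by ring

/-- A power law up to constants implies the power law with `o(1)` in the exponent. -/
theorem PN_of_bounds {f : ℕ → ℝ} {a c C : ℝ} (hc : 0 < c)
    (h : ∀ r : ℕ, 1 ≤ r → c * (r : ℝ) ^ (-a) ≤ f r ∧ f r ≤ C * (r : ℝ) ^ (-a)) : PN f a := by
  intro ε hε
  have h1 : Tendsto (fun r : ℕ => (r : ℝ) ^ ε) atTop atTop :=
    (tendsto_rpow_atTop hε).comp tendsto_natCast_atTop_atTop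
  obtain ⟨n₀, hn₀⟩ := (((h1.eventually_ge_atTop (1 / c)).and
    (h1.eventually_ge_atTop C)).and (eventually_ge_atTop 1)).exists_forall_of_atTop
  refine ⟨n₀, fun n hn => ?_⟩
  obtain ⟨⟨h2, h3⟩, h4⟩ := hn₀ n hn
  obtain ⟨h5, h6⟩ := h n h4
  have hn0 : (0 : ℝ) < n := by exact_mod_cast h4
  have hp : 0 < (n : ℝ) ^ (-a) := by positivity
  have hq : 0 < (n : ℝ) ^ (-a - ε) := by positivity
  constructor
  · refine le_trans ?_ h5
    have e : (n : ℝ) ^ (-a) = (n : ℝ) ^ ε * (n : ℝ) ^ (-a - ε) := by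
      rw [← Real.rpow_add hn0]
      congr 1
      ring
    rw [e, ← mul_assoc]
    have : 1 ≤ c * (n : ℝ) ^ ε := by
      rw [div_le_iff₀ hc] at h2
      linarith
    nlinarith
  · refine h6.trans ?_
    have e : (n : ℝ) ^ (-a + ε) = (n : ℝ) ^ ε * (n : ℝ) ^ (-a) := by
      rw [← Real.rpow_add hn0]
      congr 1
      ring
    rw [e]
    exact mul_le_mul_of_nonneg_right h3 hp.le

/-- **The four-arm exponent.** -/
theorem a4_PN (hU : UpA4) : PN (a4 half) (5 / 4) := by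
  obtain ⟨c, hc, h1⟩ := a4_lower
  obtain ⟨C, hC, h2⟩ := a4_upper hU
  exact PN_of_bounds hc fun r hr => ⟨h1 r hr, h2 r hr⟩

end Pool.Agent.H89.EX
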