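import Pool.Agent.H89.Link.Final
import Pool.Agent.H89.Link.CylArm
import Pool.Agent.H66.OneArm.Tot
import Pool.Agent.H56.EX.Stat
import Pool.Agent.H31.EX.PowerLaw

/-!
# The one-arm exponent of the square lattice at `1 / 2`

The exact one-arm probability of the cylinder of circumference `2 n` gives the one-arm probability
of the plane up to constants, and `PN (arm half) (5 / 48)`.
-/

set_option autoImplicit false

open MeasureTheory ProbabilityTheory unitInterval Filter Topology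

namespace Pool.Agent.H89.EX

open H56.EX
open Pool.Agent.H89.Link
open Pool.Agent.H89.Perc (Vert Edge Config Pr half arm arm_antitone)
open Pool.Agent.H31.EX (PN)
open Pool.Agent.H15.Exact (vR vR_eq arm1)
open Pool.Agent.H34.Hom (sum_vv_ne)

/-- The absolute value of the normalised one-arm sum. -/
noncomputable def g1 (n : ℕ) : ℝ :=
  |arm1 (2 * n) / (∑ P : H56.EX.Pat (2 * n), vR (2 * n) P) ^ 2|

theorem link_one_g1 {n : ℕ} (hn : 1 ≤ n) :
    (∀ k : ℕ, 2 * k < n → g1 n ≤ arm half k) ∧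
      ∀ H : ℕ, Pr half {ω | Perc.Conn (per n ω) (strip H) 0 ((n : ℤ), -(n : ℤ))} ≤ g1 n := by
  have hst := H56.EX.stat Pool.Agent.H12.QKZ.psiProps (L := 2 * n) (by omega)
  obtain ⟨g, hg, h1, h2⟩ := link_one (L := 2 * n) (n := n) rfl hn hst
    (sum_vv_ne Pool.Agent.H12.QKZ.psiProps rfl (by omega))
  have h0 : 0 ≤ g := le_trans measureReal_nonneg (h2 0)
  have e : g = arm1 (2 * n) / (∑ P : H56.EX.Pat (2 * n), vR (2 * n) P) ^ 2 := by
    have e1 : ∑ P : Pat (2 * n), Pool.Agent.H12.QKZ.Psi (2 * n) P (fun _ => 1) =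
        ((∑ P : Pat (2 * n), vR (2 * n) P : ℝ) : ℂ) := by
      push_cast
      exact Finset.sum_congr rfl fun P _ => (vR_eq _ P).symm
    have e2 : (g : ℂ) = ((arm1 (2 * n) / (∑ P : H56.EX.Pat (2 * n), vR (2 * n) P) ^ 2 : ℝ) : ℂ) := by
      rw [hg, e1]
      unfold arm1
      push_cast
      congr 1
      refine Finset.sum_congr rfl fun P _ => Finset.sum_congr rfl fun Q _ => ?_
      split_ifs
      · push_cast
        rw [vR_eq, vR_eq]
      · simp
    exact_mod_cast e2
  have e3 : g = g1 n := by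
    unfold g1
    rw [← e, abs_of_nonneg h0]
  subst e3
  exact ⟨h1, h2⟩

/-- **The one-arm exponent.** -/
theorem arm_PN : PN (arm half) (5 / 48) := by
  intro ε hε
  obtain ⟨c, hc, hwind⟩ := arm_le_wind
  have hb := Pool.Agent.H66.OneArm.g1_bounds (ε / 2) (by linarith)
  -- constants
  have hpow : Tendsto (fun r : ℕ => (r : ℝ) ^ (ε / 2)) atTop atTop :=
    (tendsto_rpow_atTop (by linarith)).comp tendsto_natCast_atTop_atTop
  obtain ⟨N, hN⟩ := (hb.and (eventually_ge_atTop 1)).exists_forall_of_atTop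
  obtain ⟨M, hM⟩ := ((hpow.eventually_ge_atTop ((6 : ℝ) ^ (5 / 48 + ε / 2))).and
    ((hpow.eventually_ge_atTop (c⁻¹)).and (eventually_ge_atTop 4))).exists_forall_of_atTop
  refine ⟨N + M + 4, fun r hr => ?_⟩
  obtain ⟨hM1, hM2, hM3⟩ := hM r (by omega)
  have hr0 : (0 : ℝ) < r := by
    have : 0 < r := by omega
    exact_mod_cast this
  constructor
  · -- lower bound: `n = 2 r + 1`
    obtain ⟨⟨h1, -⟩, -⟩ := hN (2 * r + 1) (by omega)
    have h2 := (link_one_g1 (n := 2 * r + 1) (by omega)).1 r (by omega)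
    have h3 : ((2 * (2 * r + 1) : ℕ) : ℝ) ^ (-(5 / 48) - ε / 2 : ℝ) ≤ arm half r := h1.trans h2
    have h4 : (6 * (r : ℝ)) ^ (-(5 / 48) - ε / 2 : ℝ) ≤
        ((2 * (2 * r + 1) : ℕ) : ℝ) ^ (-(5 / 48) - ε / 2 : ℝ) := by
      apply Real.rpow_le_rpow_of_nonpos
      · positivity
      · push_cast
        have : (1 : ℝ) ≤ r := by
          have : 1 ≤ r := by omega
          exact_mod_cast this
        linarith
      · linarith
    refine le_trans ?_ (h4.trans h3)
    rw [Real.mul_rpow (by norm_num) hr0.le]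
    have e1 : (r : ℝ) ^ (-(5 / 48) - ε : ℝ) = (r : ℝ) ^ (-(ε / 2)) * (r : ℝ) ^ (-(5 / 48) - ε / 2 : ℝ) := by
      rw [← Real.rpow_add hr0]
      congr 1
      ring
    rw [e1]
    apply mul_le_mul_of_nonneg_right _ (by positivity)
    rw [Real.rpow_neg hr0.le]
    have e2 : (6 : ℝ) ^ (-(5 / 48) - ε / 2 : ℝ) = ((6 : ℝ) ^ (5 / 48 + ε / 2))⁻¹ := by
      rw [← Real.rpow_neg (by norm_num)]
      congr 1
      ring
    rw [e2]
    exact inv_anti₀ (by positivity) hM1
  · -- upper bound: `m = r / 2`, `n = 16 m`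
    obtain ⟨m, hm⟩ : ∃ m, m = r / 2 := ⟨_, rfl⟩
    have hm1 : 1 ≤ m := by omega
    have hm2 : 2 * m ≤ r := by omega
    have hm3 : r ≤ 4 * m := by omega
    have hm4 : N ≤ 16 * m := by omega
    obtain ⟨⟨-, h1⟩, -⟩ := hN (16 * m) hm4
    have h2 := (link_one_g1 (n := 16 * m) (by omega)).2 (64 * m)
    have h3 := hwind m hm1
    have h4 : arm half r ≤ arm half (2 * m) := arm_antitone hm2
    have h5 : c * arm half r ≤ ((2 * (16 * m) : ℕ) : ℝ) ^ (-(5 / 48) + ε / 2 : ℝ) :=
      (mul_le_mul_of_nonneg_left h4 hc.le).trans (h3.trans (h2.trans h1))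
    by_cases hs : -(5 / 48) + ε / 2 ≤ (0 : ℝ)
    · have h6 : ((2 * (16 * m) : ℕ) : ℝ) ^ (-(5 / 48) + ε / 2 : ℝ) ≤
          (r : ℝ) ^ (-(5 / 48) + ε / 2 : ℝ) := by
        apply Real.rpow_le_rpow_of_nonpos hr0 _ hs
        have : r ≤ 2 * (16 * m) := by omega
        exact_mod_cast this
      have h7 : arm half r ≤ c⁻¹ * (r : ℝ) ^ (-(5 / 48) + ε / 2 : ℝ) := by
        rw [inv_mul_eq_div, le_div_iff₀ hc]
        linarith
      refine h7.trans ?_
      have e1 : (r : ℝ) ^ (-(5 / 48) + ε : ℝ) = (r : ℝ) ^ (ε / 2) * (r : ℝ) ^ (-(5 / 48) + ε / 2 : ℝ) := by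
        rw [← Real.rpow_add hr0]
        congr 1
        ring
      rw [e1]
      exact mul_le_mul_of_nonneg_right hM2 (by positivity)
    · -- `ε` large: trivial
      push Not at hs
      refine (measureReal_le_one).trans ?_
      apply Real.one_le_rpow
      · have : 1 ≤ r := by omega
        exact_mod_cast this
      · linarith

end Pool.Agent.H89.EX
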