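import Pool.Agent.H89.EX.FourExp
import Pool.Agent.H89.EX.ArmExp
import Pool.Agent.H83.EX.Exit
import Pool.Agent.H47.EX.UpA4
import Pool.Agent.H26.ST.Final
import Pool.Agent.H29.Sep.QM
import Pool.Agent.H57.EX.Main

/-!
# The exponents `β = 5/36` and `γ = 43/18` of bond percolation on the square lattice
-/

set_option autoImplicit false

open MeasureTheory ProbabilityTheory unitInterval Filter Topology

namespace Pool.Agent.H89.EX

open Pool.Agent.H89.Perc (Vert Edge Config Pr half arm)
open Pool.Agent.H61.NC (a4)
open Pool.Agent.H31.EX (PN HasBeta HasGamma)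

/-- The exponents from the two remaining inputs: gluing on the torus and outward separation. -/
theorem exact_of (hGL : Pool.Agent.H61.NC.GLTorus) (hU : UpA4) :
    HasBeta (5 / 36) ∧ HasGamma (43 / 18) :=
  Pool.Agent.H83.EX.exact_exponents_of hGL (a4_PN hU) arm_PN

/-- Gluing on the torus. -/
theorem glTorus : Pool.Agent.H61.NC.GLTorus :=
  Pool.Agent.H29.Sep.glTorus Pool.Agent.H26.HP.badIn
    (Pool.Agent.H57.EX.glt Pool.Agent.H26.HP.badIn Pool.Agent.H26.HP.badOut)
    (Pool.Agent.H59.EX.regA4 Pool.Agent.H26.HP.badIn) Pool.Agent.H26.ST.sepTorus_holds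

/-- **The four-arm exponent** `5/4` of critical bond percolation on the square lattice. -/
theorem four_PN : PN (a4 half) (5 / 4) := a4_PN Pool.Agent.H47.EX.upA4

/-- **The exponents of bond percolation on the square lattice.** -/
theorem exact : HasBeta (5 / 36) ∧ HasGamma (43 / 18) :=
  exact_of glTorus Pool.Agent.H47.EX.upA4

end Pool.Agent.H89.EX
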